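import Mathlib
import Pool.Agent.Work.MP_a5099b_nt.D6.All
import Pool.Agent.Work.MP_a5099b_nt.D4.Trans
import Pool.Agent.Work.MP_a5099b_nt.FM.HMain
import Pool.Agent.Work.MP_a5099b_nt.FM.TransN

/-!
# Supersingular places for 100 percent of the elliptic curves over every number field
-/

set_option autoImplicit false

namespace Pool.Agent.Results.MP_a5099b_nt.DensityOne

open NumberField IsDedekindDomain Polynomial Pool.Agent.SS

/-- The curve `y ^ 2 = x ^ 3 + A x + B` over the ring of integers of `K`. -/
def curve {K : Type} [Field K] [NumberField K] (A B : 𝓞 K) : WeierstrassCurve (𝓞 K) :=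
  ⟨0, 0, 0, A, B⟩

/-- The member of the family `W` at the point `t`. -/
noncomputable def member {A : Type} [CommRing A] {m : ℕ}
    (W : WeierstrassCurve (MvPolynomial (Fin m) A)) (t : Fin m → A) : WeierstrassCurve A :=
  W.map (MvPolynomial.eval t)

/-- The pull back of the family `W` along the polynomial map `φ`. -/
noncomputable def pullback {A : Type} [CommRing A] {m n : ℕ}
    (W : WeierstrassCurve (MvPolynomial (Fin m) A)) (φ : Fin m → MvPolynomial (Fin n) A) :
    WeierstrassCurve (MvPolynomial (Fin n) A) :=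
  W.map (MvPolynomial.eval₂Hom MvPolynomial.C φ)

/-- Let `K` be a number field and `b` a basis of its ring of integers over `ℤ`.

(1) For every `ε > 0` there is a number `L` such that in every box of pairs `(A, B)` (the
coordinates of `A` and of `B` run through intervals of integers) all of whose sides contain at
least `L` integers, at least the proportion `1 - ε` of the pairs `(A, B)` give a curve
`y ^ 2 = x ^ 3 + A x + B` with nonzero discriminant which has good supersingular reduction at
infinitely many places of `K`.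

(2) Let `W` be a family of Weierstrass curves over the ring of integers with the parameters
`t_0, …, t_n` and `φ` a dominant polynomial map of the affine space of dimension `n + 1` to itself
such that the invariant of the pull back of `W` along `φ` is a function `P(T) / Q(T)` of the first
variable `T` only, where `P` and `Q` are coprime over `K` and the maximum of their degrees is odd.
Then the same is true for the members of the family `W`. -/
theorem result (K : Type) [Field K] [NumberField K] (ι : Type) [Fintype ι]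
    (b : Module.Basis ι ℤ (𝓞 K)) (ε : ℝ) (hε : 0 < ε) :
    (∃ L : ℕ, ∀ (a a' : ι → ℤ) (T T' : ι → ℕ), (∀ i, L ≤ T i ∧ L ≤ T' i) →
      (1 - ε) * ((∏ i, (T i : ℝ)) * ∏ i, (T' i : ℝ)) ≤
        ({P : 𝓞 K × 𝓞 K | (∀ i, a i ≤ b.repr P.1 i ∧ b.repr P.1 i < a i + T i) ∧
          (∀ i, a' i ≤ b.repr P.2 i ∧ b.repr P.2 i < a' i + T' i) ∧
          (curve P.1 P.2).Δ ≠ 0 ∧
          {v : HeightOneSpectrum (𝓞 K) | SSRed (curve P.1 P.2) v}.Infinite}.ncard : ℝ)) ∧
    ∀ (n : ℕ) (W : WeierstrassCurve (MvPolynomial (Fin (n + 1)) (𝓞 K)))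
      (φ : Fin (n + 1) → MvPolynomial (Fin (n + 1)) (𝓞 K)) (P Q : Polynomial (𝓞 K)),
      Algebra.IsAlgebraic (Algebra.adjoin (𝓞 K) (Set.range φ))
        (MvPolynomial (Fin (n + 1)) (𝓞 K)) →
      (pullback W φ).Δ ≠ 0 →
      (pullback W φ).c₄ ^ 3 * aeval (MvPolynomial.X 0) Q =
        aeval (MvPolynomial.X 0) P * (pullback W φ).Δ →
      IsCoprime (P.map (algebraMap (𝓞 K) K)) (Q.map (algebraMap (𝓞 K) K)) →
      Odd (max P.natDegree Q.natDegree) →
      ∃ L : ℕ, ∀ (α : Fin (n + 1) → ι → ℤ) (T : Fin (n + 1) → ι → ℕ), (∀ j i, L ≤ T j i) →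
        (1 - ε) * ∏ j, ∏ i, (T j i : ℝ) ≤
          ({t : Fin (n + 1) → 𝓞 K |
            (∀ j i, α j i ≤ b.repr (t j) i ∧ b.repr (t j) i < α j i + T j i) ∧
            (member W t).Δ ≠ 0 ∧
            {v : HeightOneSpectrum (𝓞 K) | SSRed (member W t) v}.Infinite}.ncard : ℝ) :=
  ⟨DD.transfer b (fun A B => (curve A B).Δ ≠ 0 ∧
      {v : HeightOneSpectrum (𝓞 K) | SSRed (curve A B) v}.Infinite) ε (DA.main_uniform_all K b ε hε),
    fun _ W φ P Q hφ hΔ hj hc hodd => FM.transN b (fun t => (member W t).Δ ≠ 0 ∧
      {v : HeightOneSpectrum (𝓞 K) | SSRed (member W t) v}.Infinite) ε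
      (FM.main_H W φ hφ hΔ P Q hj hc hodd b ε hε)⟩

end Pool.Agent.Results.MP_a5099b_nt.DensityOne
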