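import Mathlib
import Pool.Agent.Work.MP_a5099b_nt.J.Main3

/-!
# Supersingular places of elliptic curves over totally complex number fields
-/

set_option autoImplicit false

namespace Pool.Agent.Results.MP_a5099b_nt.OddSupersingularAll

open NumberField IsDedekindDomain Pool.Agent.SS

/-- Let `K` be a totally complex number field and `W` a Weierstrass curve over its ring of integers
with nonzero discriminant. Let `q ≥ 7` be a prime number such that the number of places of odd
residue degree above `q` at which `W` has potentially good supersingular reduction is odd; suppose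
that these places are unramified over `q`, that the invariant of `W` is not congruent to `0` or
`1728` there and, if `q ≡ 1 mod 4`, that it is not congruent to `8000` there. Then `W` has good
supersingular reduction at infinitely many places. -/
theorem result (K : Type) [Field K] [NumberField K] [IsTotallyComplex K]
    (W : WeierstrassCurve (𝓞 K)) (hW : W.Δ ≠ 0) (q : ℕ) (hq : q.Prime) (h7 : 7 ≤ q)
    (hodd : Odd (Sig q W).ncard)
    (hur : ∀ v ∈ Sig q W, (q : 𝓞 K) ∉ v.asIdeal ^ 2)
    (h0 : ∀ v ∈ Sig q W, ¬ JMod W v 0 ∧ ¬ JMod W v 1728)
    (h8 : q % 4 = 1 → ∀ v ∈ Sig q W, ¬ JMod W v 8000) :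
    {v : HeightOneSpectrum (𝓞 K) | SSRed W v}.Infinite :=
  J.inf_of_odd W hW hq h7 hur h0 h8 hodd

end Pool.Agent.Results.MP_a5099b_nt.OddSupersingularAll
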