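import Mathlib
import Pool.Agent.Work.MP_a5099b_nt.ZI.Law

/-!
# A zero-infinity law for supersingular places of odd degree
-/

set_option autoImplicit false

namespace Pool.Agent.Results.MP_a5099b_nt.ZeroInfinityLaw

open NumberField IsDedekindDomain Pool.Agent.SS

/-- Let `K` be a number field and `W` a Weierstrass curve over its ring of integers with nonzero
discriminant and invariant `j`, such that no conjugate of `j` is real and no two different
conjugates of `j` are invariants of curves with an isogeny of degree 2. Then the explicit number
`bad W` is a nonzero integer `N`, and if `W` has potentially good supersingular reduction at a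
place of odd residue degree above a prime number which does not divide `N`, then `W` has good
supersingular reduction at infinitely many places of `K`. -/
theorem result (K : Type) [Field K] [NumberField K] (W : WeierstrassCurve (𝓞 K)) (hW : W.Δ ≠ 0)
    (hj : ∀ σ : K →+* ℂ, (σ (jay W)).im ≠ 0)
    (h2 : ∀ σ τ : K →+* ℂ, σ (jay W) ≠ τ (jay W) → Phi2 (σ (jay W)) (τ (jay W)) ≠ 0) :
    ∃ N : ℤ, N ≠ 0 ∧ (N : ℂ) = bad W ∧ ∀ q : ℕ, q.Prime → ¬ (q : ℤ) ∣ N →
      (Sig q W).Nonempty → {v : HeightOneSpectrum (𝓞 K) | SSRed W v}.Infinite :=
  ZI.law W hW hj h2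

end Pool.Agent.Results.MP_a5099b_nt.ZeroInfinityLaw
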