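import Mathlib
import Pool.Agent.Work.MP_a5099b_nt.FM.LMain
import Pool.Agent.Work.MP_a5099b_nt.FM.LNb

/-!
# One supersingular fibre of a family of elliptic curves and 100 percent of its members
-/

set_option autoImplicit false

namespace Pool.Agent.Results.MP_a5099b_nt.ZeroOneFamilies

open NumberField IsDedekindDomain Polynomial Pool.Agent.SS

/-- The member of the family `W` at the point `t`. -/
noncomputable def member {A : Type} [CommRing A] {m : ℕ}
    (W : WeierstrassCurve (MvPolynomial (Fin m) A)) (t : Fin m → A) : WeierstrassCurve A :=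
  W.map (MvPolynomial.eval t)

/-- The pull back of the family `W` along the polynomial map `φ`. -/
noncomputable def pullback {A : Type} [CommRing A] {m n : ℕ}
    (W : WeierstrassCurve (MvPolynomial (Fin m) A)) (φ : Fin m → MvPolynomial (Fin n) A) :
    WeierstrassCurve (MvPolynomial (Fin n) A) :=
  W.map (MvPolynomial.eval₂Hom MvPolynomial.C φ)

/-- The polynomial map `φ` of the affine space of dimension `n + 1` to itself is dominant, and the
invariant of the pull back of the family `W` along `φ` is the function `P(T) / Q(T)` of the first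
variable `T`. -/
def Invariant {A : Type} [CommRing A] {n : ℕ}
    (W : WeierstrassCurve (MvPolynomial (Fin (n + 1)) A))
    (φ : Fin (n + 1) → MvPolynomial (Fin (n + 1)) A) (P Q : Polynomial A) : Prop :=
  Algebra.IsAlgebraic (Algebra.adjoin A (Set.range φ)) (MvPolynomial (Fin (n + 1)) A) ∧
  (pullback W φ).Δ ≠ 0 ∧
  (pullback W φ).c₄ ^ 3 * aeval (MvPolynomial.X 0) Q =
    aeval (MvPolynomial.X 0) P * (pullback W φ).Δ

/-- The place `v` of `L` has odd residue degree above the prime `q ≥ 7`, and there is an integer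
`t` of `L` such that `P(t) / Q(t)` is modulo `v` the invariant of a supersingular elliptic curve
`E` over the residue field, not congruent to `0` or `1728` (nor to `8000` if `q ≡ 1 mod 4`), and the
derivative of `P / Q` at `t` is not zero modulo `v`. -/
def SSFibre {K L : Type} [Field K] [Field L] [Algebra K L] (P Q : Polynomial (𝓞 K))
    (v : HeightOneSpectrum (𝓞 L)) (q : ℕ) : Prop :=
  q.Prime ∧ 7 ≤ q ∧ (q : 𝓞 L) ∈ v.asIdeal ∧
  (∃ f : ℕ, Odd f ∧ Nat.card (𝓞 L ⧸ v.asIdeal) = q ^ f) ∧
  ∃ t : 𝓞 L, aeval t Q ∉ v.asIdeal ∧ aeval t (derivative P * Q - P * derivative Q) ∉ v.asIdeal ∧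
    aeval t P ∉ v.asIdeal ∧ aeval t P - 1728 * aeval t Q ∉ v.asIdeal ∧
    (q % 4 = 1 → aeval t P - 8000 * aeval t Q ∉ v.asIdeal) ∧
    ∃ E : WeierstrassCurve (𝓞 L ⧸ v.asIdeal), E.Δ ≠ 0 ∧
      Ideal.Quotient.mk v.asIdeal (aeval t Q) * E.c₄ ^ 3 =
        Ideal.Quotient.mk v.asIdeal (aeval t P) * E.Δ ∧
      Nat.card E.toAffine.Point ≡ 1 [MOD q]

/-- 100 percent of the members of the family `W` have infinitely many supersingular places: for
every basis of the ring of integers of `K` over `ℤ` and every `ε > 0` there is a number `N` such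
that in every box of points `t` all of whose sides contain at least `N` integers at least the
proportion `1 - ε` of the points `t` give a curve with nonzero discriminant which has good
supersingular reduction at infinitely many places of `K`. -/
def Hundred {K : Type} [Field K] [NumberField K] {m : ℕ}
    (W : WeierstrassCurve (MvPolynomial (Fin m) (𝓞 K))) : Prop :=
  ∀ (ι : Type) [Fintype ι] (B : Module.Basis ι ℤ (𝓞 K)) (ε : ℝ), 0 < ε →
    ∃ N : ℕ, ∀ (α : Fin m → ι → ℤ) (T : Fin m → ι → ℕ), (∀ j i, N ≤ T j i) →
      (1 - ε) * ∏ j, ∏ i, (T j i : ℝ) ≤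
        ({t : Fin m → 𝓞 K |
          (∀ j i, α j i ≤ B.repr (t j) i ∧ B.repr (t j) i < α j i + T j i) ∧
          (member W t).Δ ≠ 0 ∧
          {v : HeightOneSpectrum (𝓞 K) | SSRed (member W t) v}.Infinite}.ncard : ℝ)

/-- The family `y ^ 2 = x (x - t_0) (x - t_1)` over the ring of integers of `K`. -/
noncomputable def legendre (K : Type) [Field K] [NumberField K] :
    WeierstrassCurve (MvPolynomial (Fin 2) (𝓞 K)) :=
  ⟨0, -(MvPolynomial.X 0 + MvPolynomial.X 1), 0, MvPolynomial.X 0 * MvPolynomial.X 1, 0⟩

/-- Let `K` be a number field.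

(1) Let `W` be a family of Weierstrass curves over its ring of integers with parameters
`t_0, …, t_n` and `φ` a dominant polynomial map of the affine space of dimension `n + 1` to itself
such that the invariant of the pull back of `W` along `φ` is a function `P(T) / Q(T)` of the first
variable `T` only (for `n = 0`: `φ = T`, and any `W`). If over one finite extension `L` of `K` there
is one supersingular fibre of `P / Q` at one place `v` of odd residue degree (see `SSFibre`), then
100 percent of the members of the family `W` have infinitely many supersingular places.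

(2) If `K` does not contain a square root of `-1`, then 100 percent of the curves
`y ^ 2 = x (x - A) (x - B)` have infinitely many supersingular places.

(3) If `K` contains a square root of `-1`, then no curve `y ^ 2 = x (x - A) (x - B)` has a
supersingular place of odd residue degree and residue characteristic at least `7`. -/
theorem result (K : Type) [Field K] [NumberField K] :
    (∀ (n : ℕ) (W : WeierstrassCurve (MvPolynomial (Fin (n + 1)) (𝓞 K)))
      (φ : Fin (n + 1) → MvPolynomial (Fin (n + 1)) (𝓞 K)) (P Q : Polynomial (𝓞 K)),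
      Invariant W φ P Q →
      ∀ (L : Type) [Field L] [NumberField L] [Algebra K L] (v : HeightOneSpectrum (𝓞 L)) (q : ℕ),
        SSFibre P Q v q → Hundred W) ∧
    ((∀ x : K, x ^ 2 ≠ -1) → Hundred (legendre K)) ∧
    ∀ x : K, x ^ 2 = -1 → ∀ (A B : 𝓞 K) (v : HeightOneSpectrum (𝓞 K)) (p f : ℕ), p.Prime →
      7 ≤ p → (p : 𝓞 K) ∈ v.asIdeal → Nat.card (𝓞 K ⧸ v.asIdeal) = p ^ f →
      SSRed (member (legendre K) ![A, B]) v → Even f := by
  refine ⟨?_, ?_, ?_⟩
  · rintro n W φ P Q ⟨hφ, hΔ, hj⟩ L _ _ _ v q
      ⟨hq, h7, hqv, hf, t₀, hQ, hd, h0, h1, h8, W', hW', hc, hn⟩ ι _ B ε hε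
    exact FM.transN B (fun t => (member W t).Δ ≠ 0 ∧
      {v : HeightOneSpectrum (𝓞 K) | SSRed (member W t) v}.Infinite) ε
      (FM.main_G W φ hφ hΔ P Q hj v hq h7 hqv hf t₀ hQ hd W' hW' hc hn h0 h1 h8 B ε hε)
  · intro hi ι _ B ε hε
    exact FM.transN B (fun t => (member (legendre K) t).Δ ≠ 0 ∧
      {v : HeightOneSpectrum (𝓞 K) | SSRed (member (legendre K) t) v}.Infinite) ε
      (FM.main_L hi B ε hε)
  · intro x hx A B v p f hp h7 hpv hf hs
    have e : member (legendre K) ![A, B] = (⟨0, -(A + B), 0, A * B, 0⟩ : WeierstrassCurve (𝓞 K)) := by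
      simp [member, legendre, WeierstrassCurve.map]
    rw [e] at hs
    exact FM.no_odd x hx A B v p hp h7 hpv f hf hs

end Pool.Agent.Results.MP_a5099b_nt.ZeroOneFamilies
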